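import Pool.Agent.T9h36.N1.Spec
import Pool.Agent.T9h95.NK.Loc0
import Pool.Agent.T9h96.NK.Cens
import Pool.Agent.T9h71.NK.M0

/-!
# Slope 1, piece N6: a vertex with a transitive figure has no neighbour of type C
-/

set_option autoImplicit false

open Set
open scoped RealInnerProductSpace

namespace Pool.Agent.T9h80.N1

open Pool.Agent.T9h98.DC Pool.Agent.T9h98.NK Pool.Agent.T9h44.NK Pool.Agent.T9h36.N1

theorem adj_img {d : ℕ} {P : Set (E d)} (h : E d ≃ₗᵢ[ℝ] E d) (hP : h '' P = P) {v w : E d}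
    (ha : Adj P v w) : Adj P (h v) (h w) := by
  refine ⟨fun h1 => ha.1 (h.injective h1), ?_⟩
  have h1 := Pool.Agent.T9h48.NK.face_image h hP ha.2
  have h2 : h '' segment ℝ v w = segment ℝ (h v) (h w) :=
    image_segment ℝ h.toLinearEquiv.toLinearMap.toAffineMap v w
  rwa [h2] at h1

theorem cor_img {d : ℕ} {P : Set (E d)} (h : E d ≃ₗᵢ[ℝ] E d) (hP : h '' P = P) {v w y : E d}
    (hc : Cor P v w y) : Cor P (h v) (h w) (h y) := by
  obtain ⟨h1, h2, h3, T, hT, hd, m1, m2, m3⟩ := hc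
  refine ⟨adj_img h hP h1, adj_img h hP h2, fun e => h3 (h.injective e), h '' T,
    Pool.Agent.T9h48.NK.face_image h hP hT, ?_, mem_image_of_mem _ m1, mem_image_of_mem _ m2,
    mem_image_of_mem _ m3⟩
  rw [Pool.Agent.T9h48.NK.dm_image, hd]

/-- the coefficients of a vertex in the cone of another vertex have sum at least one -/
theorem one_le {d : ℕ} {P : Set (E d)} {v u : E d} (hv : v ∈ P) (hu : Vx P u) (huv : u ≠ v)
    {α : Type} (S : Finset α) (f : α → E d) (b : α → ℝ) (hf : ∀ i ∈ S, f i ∈ P) (hb : ∀ i ∈ S, 0 ≤ b i)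
    (hsum : u - v = ∑ i ∈ S, b i • (f i - v)) : 1 ≤ ∑ i ∈ S, b i := by
  obtain ⟨huP, l, hl⟩ := Pool.Agent.T9h71.NK.vx_fun hu
  by_contra hcon
  push Not at hcon
  have h3 : l u - l v = ∑ i ∈ S, b i * (l (f i) - l v) := by
    rw [← map_sub, hsum, map_sum]
    refine Finset.sum_congr rfl fun y _ => ?_
    rw [map_smul, map_sub, smul_eq_mul]
  have h4 : ∑ i ∈ S, b i * (l (f i) - l v) ≤ ∑ i ∈ S, b i * (l u - l v) := by
    refine Finset.sum_le_sum fun y hy => mul_le_mul_of_nonneg_left ?_ (hb y hy)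
    by_cases hyw : f y = u
    · rw [hyw]
    · have := hl _ (hf y hy) hyw
      linarith
  rw [← Finset.sum_mul] at h4
  have h5 : l v < l u := hl v hv huv.symm
  nlinarith

/-- the angle at a vertex of type C -/
theorem angle {d : ℕ} (p q r : E d) (g α β : ℝ) (hg0 : 0 ≤ g) (hg1 : g < 1) (hβ : 0 < β)
    (hαβ : 1 ≤ α + β) (h1 : ⟪p, q⟫ = g * (‖p‖ * ‖q‖)) (h2 : β • r = q + (α + β - 1) • p) :
    g * (‖r‖ * ‖p‖) ≤ ⟪r, p⟫ := by
  have h3 : β * ⟪r, p⟫ = g * (‖p‖ * ‖q‖) + (α + β - 1) * ‖p‖ ^ 2 := by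
    rw [← real_inner_smul_left, h2, inner_add_left, real_inner_smul_left, real_inner_comm, h1,
      real_inner_self_eq_norm_sq]
  have h4 : β * ‖r‖ ≤ ‖q‖ + (α + β - 1) * ‖p‖ := by
    have h5 : ‖β • r‖ = β * ‖r‖ := by rw [norm_smul, Real.norm_eq_abs, abs_of_pos hβ]
    rw [← h5, h2]
    refine (norm_add_le _ _).trans ?_
    rw [norm_smul, Real.norm_eq_abs, abs_of_nonneg (by linarith)]
  have h6 : β * (g * (‖r‖ * ‖p‖)) ≤ β * ⟪r, p⟫ := by
    rw [h3]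
    have h7 : g * ‖p‖ * (β * ‖r‖) ≤ g * ‖p‖ * (‖q‖ + (α + β - 1) * ‖p‖) :=
      mul_le_mul_of_nonneg_left h4 (by positivity)
    have h8 : 0 ≤ (1 - g) * ((α + β - 1) * ‖p‖ ^ 2) :=
      mul_nonneg (by linarith) (mul_nonneg (by linarith) (by positivity))
    nlinarith
  exact le_of_mul_le_mul_left h6 hβ

/-- an isosceles triangle with small angles at the base -/
theorem apex {d : ℕ} (a b : E d) (g l : ℝ) (hl : 0 < l) (hg0 : 0 < g) (ha : ‖a‖ = l) (hb : ‖b‖ = l)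
    (hab : a ≠ b) (h : g * (‖b - a‖ * l) ≤ ⟪b - a, -a⟫) : ⟪a, b⟫ ≤ (1 - 2 * g ^ 2) * l ^ 2 := by
  have h1 : ⟪b - a, -a⟫ = l ^ 2 - ⟪a, b⟫ := by
    rw [inner_neg_right, inner_sub_left, real_inner_self_eq_norm_sq, ha, real_inner_comm]
    ring
  have h2 : ‖b - a‖ ^ 2 = 2 * (l ^ 2 - ⟪a, b⟫) := by
    rw [norm_sub_sq_real, ha, hb, real_inner_comm]
    ring
  have h3 : 0 < ‖b - a‖ := norm_pos_iff.2 (sub_ne_zero.2 hab.symm)
  rw [h1] at h
  set m := l ^ 2 - ⟪a, b⟫ with hm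
  have h4 : 0 < m := by nlinarith
  have h5 : (g * (‖b - a‖ * l)) ^ 2 ≤ m ^ 2 := pow_le_pow_left₀ (by positivity) h 2
  have h6 : (g * (‖b - a‖ * l)) ^ 2 = g ^ 2 * l ^ 2 * (2 * m) := by
    rw [← h2]; ring
  rw [h6] at h5
  have h7 : 2 * g ^ 2 * l ^ 2 ≤ m := by
    by_contra hcon
    push Not at hcon
    nlinarith
  rw [hm] at h7
  linarith

theorem n6 : S_FACES → S_VF → S_EDGE → S_NB → S_CONE → S_N6 := by
  intro hF hVF hE hNB hC D P H w n v ι g hD hP hPr hDat hwv hLoc hPT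
  obtain ⟨hw, hS, hn, hO, hst⟩ := hDat
  obtain ⟨m, rfl⟩ : ∃ m, D = m + 1 := ⟨D - 1, by omega⟩
  have hQ : IsPolytope (fig w n ι P) := (hVF (m + 1) P w n ι hP hw hS hn hO).1
  obtain ⟨n1, n2, n3, n4⟩ := hNB (m + 1) P w n ι hP hw hS hn hO
  have htr : ∀ x x', Vx (fig w n ι P) x → Vx (fig w n ι P) x' → ∃ k ∈ figH H w ι, k x = x' :=
    fun x x' hx hx' => vtrans hPT x x' hx hx'
  have hfm := hF (m + 1 + 1) P hP.1
  have hV : ∀ a b, Adj P a b → Vx P b := fun a b h => (hfm.2.2.2.2.2.2.2.2.1 a b h).2.1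
  have hfQ := hF (m + 1) (fig w n ι P) hQ.1
  -- a vertex of the figure
  obtain ⟨x₀, hx₀, -⟩ := n1 v hwv
  have hρ : ∀ x, Vx (fig w n ι P) x → ‖x‖ = ‖x₀‖ := by
    intro x hx
    obtain ⟨k, -, hk⟩ := htr x₀ x hx₀ hx
    rw [← hk, LinearIsometryEquiv.norm_map]
  -- vertices span
  have hspan : ∀ (z : E (m + 1)) (β : ℝ), (∀ x, Vx (fig w n ι P) x → ⟪x, z⟫ = β) → z = 0 := by
    intro z β h
    refine Pool.Agent.T9h96.NK.eq_zero_of_const hQ.2 z β ?_
    have hhull : fig w n ι P = convexHull ℝ {x | Vx (fig w n ι P) x} := by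
      have hne : (fig w n ι P).Nonempty := hQ.2.mono interior_subset
      have h1 := (hfQ.1 _ (hfQ.2.2.2.2.1 hne).1).2
      have h2 : {x | Vx (fig w n ι P) x ∧ x ∈ fig w n ι P} = {x | Vx (fig w n ι P) x} := by
        ext x
        exact ⟨fun h => h.1, fun h => ⟨h, h.2.subset rfl⟩⟩
      rw [h2] at h1
      exact h1
    have hconv : Convex ℝ {x : E (m + 1) | ⟪x, z⟫ = β} := by
      intro a ha b hb s t hs ht hst
      change ⟪s • a + t • b, z⟫ = β
      rw [inner_add_left, real_inner_smul_left, real_inner_smul_left,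
        show ⟪a, z⟫ = β from ha, show ⟪b, z⟫ = β from hb, ← add_mul, hst, one_mul]
    intro x hx
    rw [hhull] at hx
    exact convexHull_min (fun x hx => h x hx) hconv hx
  have hx0ne : 0 < ‖x₀‖ := by
    rw [norm_pos_iff]
    intro h0
    have hall : ∀ x, Vx (fig w n ι P) x → x = 0 := by
      intro x hx
      have := hρ x hx
      rw [h0, norm_zero] at this
      exact norm_eq_zero.1 this
    have h1 := hspan (EuclideanSpace.single 0 1) 0 (fun x hx => by rw [hall x hx, inner_zero_left])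
    have h2 := congrArg norm h1
    rw [PiLp.norm_single, norm_zero, norm_one] at h2
    exact one_ne_zero h2
  obtain ⟨t, ht, c1, c2⟩ := Pool.Agent.T9h95.NK.core hNB hP hPr hw hS hn hO hst htr (‖x₀‖ ^ 2)
    (by positivity) ⟨x₀, hx₀⟩ (fun x hx => by rw [real_inner_self_eq_norm_sq, hρ x hx])
  have htr' := Pool.Agent.T9h95.NK.trn hNB hP hPr hw hS hn hO hst htr
  -- the cosine of the angles at `w`
  have hg0 : 2 / 3 + 1 / 5 ≤ g := by
    have h1 := hLoc.ggt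
    have h2 : (15:ℝ) ≤ ((m + 1 : ℕ) : ℝ) := by exact_mod_cast hD
    have h3 : 2 / ((m + 1 : ℕ) : ℝ) ≤ 2 / 15 := by
      apply div_le_div_of_nonneg_left (by norm_num) (by norm_num) h2
    linarith
  have hnorm : ∀ y, Adj P w y → ‖y - w‖ ^ 2 = t ^ 2 * (‖n‖ ^ 2 + ‖x₀‖ ^ 2) := by
    intro y hy
    obtain ⟨x, hx, hyx⟩ := c1 y hy
    rw [← real_inner_self_eq_norm_sq, Pool.Agent.T9h95.NK.ip w n ι hO hyx hyx,
      real_inner_self_eq_norm_sq, hρ x hx]
    ring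
  have hcor : ∀ y z, Cor P w y z → ⟪y - w, z - w⟫ ≤ (1 - 2 * g ^ 2) * (t ^ 2 * (‖n‖ ^ 2 + ‖x₀‖ ^ 2)) := by
    intro y z hyz
    obtain ⟨h, hh, hhw, hhy⟩ := htr' y v hyz.1 hwv
    have hyz' := cor_img h (hPr h hh) hyz
    rw [hhw, hhy] at hyz'
    have e0 : ⟪y - w, z - w⟫ = ⟪v - w, h z - w⟫ := by
      rw [← h.inner_map_map, map_sub, map_sub, hhw, hhy]
    rw [e0]
    set z' := h z with hz'
    obtain ⟨u, hu, ⟨α, β, hα, hβ, hu2⟩, -⟩ := hE (m + 1) P hP w v z' hyz'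
    have huw : u ≠ w := hu.2.2.1.symm
    have hwP : w ∈ P := hw.2.subset rfl
    have hsum : 1 ≤ α + β := by
      have := one_le (α := Fin 2) hwP (hV _ _ hu.2.1) huw Finset.univ ![v, z'] ![α, β] (by
        intro i _
        fin_cases i
        · exact (hV _ _ hyz'.1).2.subset rfl
        · exact (hV _ _ hyz'.2.1).2.subset rfl) (by
        intro i _
        fin_cases i
        · exact hα
        · exact hβ.le) (by simpa using hu2)
      simpa using this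
    have h1 := hLoc.cor w u hu
    have h2 : β • (z' - v) = (u - v) + (α + β - 1) • (w - v) := by
      have : u - v = (u - w) + (w - v) := by abel
      rw [this, hu2]
      module
    have h3 := angle (w - v) (u - v) (z' - v) g α β (by linarith) hLoc.glt hβ hsum h1 h2
    set l := ‖v - w‖ with hl
    have hlpos : 0 < l := norm_pos_iff.2 (sub_ne_zero.2 hwv.1.symm)
    have hl2 : l ^ 2 = t ^ 2 * (‖n‖ ^ 2 + ‖x₀‖ ^ 2) := hnorm v hwv
    have hl3 : ‖z' - w‖ = l := by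
      have h4 := hnorm z' hyz'.2.1
      rw [← hl2] at h4
      exact (sq_eq_sq₀ (norm_nonneg _) hlpos.le).1 h4
    have h5 : g * (‖(z' - w) - (v - w)‖ * l) ≤ ⟪(z' - w) - (v - w), -(v - w)⟫ := by
      have e1 : (z' - w) - (v - w) = z' - v := by abel
      have e2 : -(v - w) = w - v := by abel
      rw [e1, e2, hl, norm_sub_rev v w]
      exact h3
    have h6 := apex (v - w) (z' - w) g l hlpos (by linarith) rfl hl3
      (fun e => hyz'.2.2.1 (sub_left_injective e)) h5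
    rwa [hl2] at h6
  -- adjacent vertices of the figure
  have hadj : ∀ x x', Adj (fig w n ι P) x x' → ⟪x, x'⟫ ≤ -(‖x₀‖ ^ 2 / 2) - ‖n‖ ^ 2 := by
    intro x x' hxx
    have hx := (hfQ.2.2.2.2.2.2.2.2.1 x x' hxx).1
    have hx' := (hfQ.2.2.2.2.2.2.2.2.1 x x' hxx).2.1
    have a1 := c2 x hx
    have a2 := c2 x' hx'
    have p1 : Pr w n ι (w + t • (n + ι x)) x := ⟨t, ht, by abel⟩
    have p2 : Pr w n ι (w + t • (n + ι x')) x' := ⟨t, ht, by abel⟩
    obtain ⟨b1, b2⟩ := (n4 _ _ _ _ a1 a2 p1 p2).1 hxx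
    have h1 := hcor _ _ ⟨a1, a2, b1, b2⟩
    rw [Pool.Agent.T9h95.NK.ip w n ι hO (by abel : w + t • (n + ι x) - w = t • (n + ι x))
      (by abel : w + t • (n + ι x') - w = t • (n + ι x'))] at h1
    have h2 : 0 < t ^ 2 := by positivity
    have h3 : t ^ 2 * (‖n‖ ^ 2 + ⟪x, x'⟫) ≤ t ^ 2 * ((1 - 2 * g ^ 2) * (‖n‖ ^ 2 + ‖x₀‖ ^ 2)) := by
      calc t ^ 2 * (‖n‖ ^ 2 + ⟪x, x'⟫) = t * t * (‖n‖ ^ 2 + ⟪x, x'⟫) := by ring
        _ ≤ _ := h1
        _ = _ := by ring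
    have h4 := le_of_mul_le_mul_left h3 h2
    have h5 : (1 - 2 * g ^ 2) ≤ -(1 / 2) := by nlinarith
    have h6 : (1 - 2 * g ^ 2) * (‖n‖ ^ 2 + ‖x₀‖ ^ 2) ≤ -(1 / 2) * (‖n‖ ^ 2 + ‖x₀‖ ^ 2) :=
      mul_le_mul_of_nonneg_right h5 (by positivity)
    nlinarith [sq_nonneg ‖n‖]
  -- all different vertices
  have hall : ∀ x x', Vx (fig w n ι P) x → Vx (fig w n ι P) x' → x ≠ x' →
      ⟪x, x'⟫ ≤ -(‖x₀‖ ^ 2 / 2) - ‖n‖ ^ 2 := by
    intro x x' hx hx' hne
    obtain ⟨S, b, hS, hsum⟩ := hC m (fig w n ι P) x hQ hx x' (hx'.2.subset rfl)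
    have h1 := one_le (hx.2.subset rfl) hx' hne.symm S (fun y => y) b
      (fun y hy => (Pool.Agent.T9h71.NK.adj_mem (hS y hy).1).2) (fun y hy => (hS y hy).2) hsum
    have h2 : ⟪x, x' - x⟫ = ∑ y ∈ S, b y * (⟪x, y⟫ - ‖x₀‖ ^ 2) := by
      rw [hsum, inner_sum]
      refine Finset.sum_congr rfl fun y hy => ?_
      rw [real_inner_smul_right, inner_sub_right, real_inner_self_eq_norm_sq, hρ x hx]
    have h3 : ∑ y ∈ S, b y * (⟪x, y⟫ - ‖x₀‖ ^ 2)
        ≤ ∑ y ∈ S, b y * (-(‖x₀‖ ^ 2 / 2) - ‖n‖ ^ 2 - ‖x₀‖ ^ 2) := by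
      refine Finset.sum_le_sum fun y hy => mul_le_mul_of_nonneg_left ?_ (hS y hy).2
      have := hadj x y (hS y hy).1
      linarith
    rw [← Finset.sum_mul] at h3
    rw [inner_sub_right, real_inner_self_eq_norm_sq, hρ x hx] at h2
    nlinarith [sq_nonneg ‖n‖, sq_nonneg ‖x₀‖]
  -- at most two vertices
  have h3v : ∀ x x' x'', Vx (fig w n ι P) x → Vx (fig w n ι P) x' → Vx (fig w n ι P) x'' →
      x ≠ x' → x ≠ x'' → x' = x'' := by
    intro x x' x'' hx hx' hx'' h1 h2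
    by_contra h3
    have a1 := hall x x' hx hx' h1
    have a2 := hall x x'' hx hx'' h2
    have a3 := hall x' x'' hx' hx'' h3
    have h4 : 0 ≤ ⟪x + x' + x'', x + x' + x''⟫ := real_inner_self_nonneg
    have h5 : ⟪x + x' + x'', x + x' + x''⟫ = ⟪x, x⟫ + ⟪x', x'⟫ + ⟪x'', x''⟫ + 2 * ⟪x, x'⟫
        + 2 * ⟪x, x''⟫ + 2 * ⟪x', x''⟫ := by
      simp only [inner_add_left, inner_add_right]
      rw [real_inner_comm x x', real_inner_comm x x'', real_inner_comm x' x'']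
      ring
    rw [h5, real_inner_self_eq_norm_sq, real_inner_self_eq_norm_sq, real_inner_self_eq_norm_sq,
      hρ x hx, hρ x' hx', hρ x'' hx''] at h4
    have h6 : 0 < ‖n‖ ^ 2 := by positivity
    linarith
  -- a vector orthogonal to all differences
  have hex : ∃ u : E (m + 1), ∀ x, Vx (fig w n ι P) x → x = x₀ ∨ x = u := by
    by_cases h : ∃ u, Vx (fig w n ι P) u ∧ u ≠ x₀
    · obtain ⟨u, hu, hu0⟩ := h
      refine ⟨u, fun x hx => ?_⟩
      by_cases hxx : x = x₀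
      · exact Or.inl hxx
      · exact Or.inr (h3v x₀ x u hx₀ hx hu (Ne.symm hxx) hu0.symm)
    · push Not at h
      exact ⟨x₀, fun x hx => Or.inl (h x hx)⟩
  obtain ⟨u, hu⟩ := hex
  have hker : LinearMap.ker (innerₛₗ ℝ (u - x₀)) ≠ ⊥ := by
    apply LinearMap.ker_ne_bot_of_finrank_lt
    rw [Module.finrank_self, finrank_euclideanSpace, Fintype.card_fin]
    omega
  obtain ⟨z, hz, hz0⟩ := (Submodule.ne_bot_iff _).1 hker
  have hz1 : ⟪u - x₀, z⟫ = 0 := hz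
  refine hz0 (hspan z ⟪x₀, z⟫ fun x hx => ?_)
  rcases hu x hx with h | h
  · rw [h]
  · rw [h]
    rw [inner_sub_left] at hz1
    linarith

end Pool.Agent.T9h80.N1
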